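import Mathlib
import Pool.Agent.H10.PRMain

set_option autoImplicit false

namespace Pool.Agent.Results.MP_81f70c_co.Shared
open Pool.Agent.H10.PR

theorem result {P : Type*} (L : Set (Set P)) (D : P) (h : IsPR L D) (nt : ¬ Subplane L Set.univ)
    (S : Set P) (hS : Plane L S) (s : Set P) (hs : s ∈ L) (sD : D ∈ s) :
    ∃ T, Plane L T ∧ T ≠ S ∧ s ∩ T = s ∩ S :=
  h.main nt hS hs sD

end Pool.Agent.Results.MP_81f70c_co.Shared
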